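import Pool.Agent.H458.AU.Def

/-!
# Chebyshev's inequality for products of finite probability spaces (project AU of helper458)
-/

set_option autoImplicit false

open scoped Classical

namespace Pool.Agent.H337.AU458

section gen

variable {ι : Type} [Fintype ι] {R : ι → Type} [∀ i, Fintype (R i)]

theorem cross (Y : ∀ i, R i → ℝ) (h0 : ∀ i, ∑ r, Y i r = 0) {i j : ι} (hij : i ≠ j) :
    ∑ ρ : ∀ i, R i, Y i (ρ i) * Y j (ρ j) = 0 := by
  have h1 : ∀ ρ : ∀ i, R i, Y i (ρ i) * Y j (ρ j) =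
      ∏ k, ((if k = i then Y k (ρ k) else 1) * (if k = j then Y k (ρ k) else 1)) := by
    intro ρ
    rw [Finset.prod_mul_distrib, Finset.prod_ite_eq', Finset.prod_ite_eq',
      if_pos (Finset.mem_univ _), if_pos (Finset.mem_univ _)]
  rw [Finset.sum_congr rfl fun ρ _ => h1 ρ, ← Fintype.prod_sum (fun k (r : R k) =>
    (if k = i then Y k r else 1) * (if k = j then Y k r else 1))]
  refine Finset.prod_eq_zero (Finset.mem_univ i) ?_
  have h2 : ∑ r : R i, ((if i = i then Y i r else 1) * (if i = j then Y i r else 1)) =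
      ∑ r, Y i r :=
    Finset.sum_congr rfl fun r _ => by rw [if_pos rfl, if_neg hij, mul_one]
  rw [h2, h0]

theorem diag (Y : ∀ i, R i → ℝ) (v : ι → ℝ)
    (hv : ∀ i, ∑ r, Y i r ^ 2 = (Fintype.card (R i) : ℝ) * v i) (i : ι) :
    ∑ ρ : ∀ i, R i, Y i (ρ i) * Y i (ρ i) = (∏ k, (Fintype.card (R k) : ℝ)) * v i := by
  have h1 : ∀ ρ : ∀ i, R i, Y i (ρ i) * Y i (ρ i) =
      ∏ k, (if k = i then Y k (ρ k) ^ 2 else 1) := by
    intro ρ
    rw [Finset.prod_ite_eq', if_pos (Finset.mem_univ _), sq]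
  have h2 : ∀ k, ∑ r : R k, (if k = i then Y k r ^ 2 else (1 : ℝ)) =
      (Fintype.card (R k) : ℝ) * (if k = i then v k else 1) := by
    intro k
    by_cases hk : k = i
    · simp only [if_pos hk]
      exact hv k
    · simp only [if_neg hk]
      rw [Finset.sum_const, Finset.card_univ, nsmul_eq_mul]
  rw [Finset.sum_congr rfl fun ρ _ => h1 ρ, ← Fintype.prod_sum (fun k (r : R k) =>
    if k = i then Y k r ^ 2 else 1), Finset.prod_congr rfl fun k _ => h2 k,
    Finset.prod_mul_distrib, Finset.prod_ite_eq', if_pos (Finset.mem_univ _)]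

/-- the variance of a sum of independent variables -/
theorem second (Y : ∀ i, R i → ℝ) (v : ι → ℝ) (h0 : ∀ i, ∑ r, Y i r = 0)
    (hv : ∀ i, ∑ r, Y i r ^ 2 = (Fintype.card (R i) : ℝ) * v i) :
    ∑ ρ : ∀ i, R i, (∑ i, Y i (ρ i)) ^ 2 = (∏ k, (Fintype.card (R k) : ℝ)) * ∑ i, v i := by
  have h1 : ∀ ρ : ∀ i, R i, (∑ i, Y i (ρ i)) ^ 2 = ∑ i, ∑ j, Y i (ρ i) * Y j (ρ j) := by
    intro ρ
    rw [sq, Finset.sum_mul_sum]
  rw [Finset.sum_congr rfl fun ρ _ => h1 ρ, Finset.sum_comm, Finset.mul_sum]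
  refine Finset.sum_congr rfl fun i _ => ?_
  rw [Finset.sum_comm, Finset.sum_eq_single i]
  · exact diag Y v hv i
  · intro j _ hj
    exact cross Y h0 (Ne.symm hj)
  · intro h
    exact absurd (Finset.mem_univ i) h

end gen

/-- **S_CHEB.** -/
theorem cheb : Pool.Agent.H458.AU.S_CHEB := by
  intro ι _ R _ _ G M hM hM0
  have hn : ∀ i, (0 : ℝ) < (Fintype.card (R i) : ℝ) := fun i => by
    exact_mod_cast Fintype.card_pos
  obtain ⟨p, hp⟩ : ∃ p : ι → ℝ, ∀ i, p i = ((G i).card : ℝ) / Fintype.card (R i) :=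
    ⟨_, fun _ => rfl⟩
  obtain ⟨Y, hY⟩ : ∃ Y : ∀ i, R i → ℝ, ∀ i r, Y i r = (if r ∈ G i then (1 : ℝ) else 0) - p i :=
    ⟨fun i r => (if r ∈ G i then (1 : ℝ) else 0) - p i, fun _ _ => rfl⟩
  have hs : ∀ i, ∑ r : R i, (if r ∈ G i then (1 : ℝ) else 0) = ((G i).card : ℝ) := by
    intro i
    rw [Finset.sum_ite_mem, Finset.univ_inter, Finset.sum_const, nsmul_eq_mul, mul_one]
  have hG : ∀ i, ((G i).card : ℝ) = Fintype.card (R i) * p i := by
    intro i
    rw [hp, mul_div_cancel₀ _ (hn i).ne']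
  have h0 : ∀ i, ∑ r, Y i r = 0 := by
    intro i
    rw [Finset.sum_congr rfl fun r _ => hY i r, Finset.sum_sub_distrib, hs, Finset.sum_const,
      Finset.card_univ, nsmul_eq_mul, hG, sub_self]
  have hv : ∀ i, ∑ r, Y i r ^ 2 = (Fintype.card (R i) : ℝ) * (p i * (1 - p i)) := by
    intro i
    have h1 : ∀ r, Y i r ^ 2 = (1 - 2 * p i) * (if r ∈ G i then (1 : ℝ) else 0) + p i ^ 2 := by
      intro r
      rw [hY]
      split_ifs
      · ring
      · ring
    rw [Finset.sum_congr rfl fun r _ => h1 r, Finset.sum_add_distrib, ← Finset.mul_sum, hs,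
      Finset.sum_const, Finset.card_univ, nsmul_eq_mul, hG]
    ring
  have hsec := second Y (fun i => p i * (1 - p i)) h0 hv
  have hMp : M = ∑ i, p i := by
    rw [hM]
    exact Finset.sum_congr rfl fun i _ => (hp i).symm
  have hle : ∑ i, p i * (1 - p i) ≤ M := by
    rw [hMp]
    refine Finset.sum_le_sum fun i _ => ?_
    have := sq_nonneg (p i)
    nlinarith
  have hX : ∀ ρ : ∀ i, R i, ∑ i, Y i (ρ i) =
      (((Finset.univ : Finset ι).filter fun i => ρ i ∈ G i).card : ℝ) - M := by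
    intro ρ
    rw [Finset.sum_congr rfl fun i _ => hY i (ρ i), Finset.sum_sub_distrib, ← hMp,
      Finset.card_filter, Nat.cast_sum]
    have h1 : ∀ i, (((if ρ i ∈ G i then 1 else 0 : ℕ)) : ℝ) = if ρ i ∈ G i then (1 : ℝ) else 0 := by
      intro i
      split_ifs
      · exact Nat.cast_one
      · exact Nat.cast_zero
    rw [Finset.sum_congr rfl fun i _ => h1 i]
  have hN : (Fintype.card (∀ i, R i) : ℝ) = ∏ k, (Fintype.card (R k) : ℝ) := by
    rw [Fintype.card_pi, Nat.cast_prod]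
  have hN0 : 0 ≤ ∏ k, (Fintype.card (R k) : ℝ) := Finset.prod_nonneg fun k _ => (hn k).le
  rw [hN]
  set S := (Finset.univ : Finset (∀ i, R i)).filter fun ρ =>
    (((Finset.univ : Finset ι).filter fun i => ρ i ∈ G i).card : ℝ) < 9 / 10 * M with hS
  have h2 : S.card • (M / 10) ^ 2 ≤ ∑ ρ ∈ S, (∑ i, Y i (ρ i)) ^ 2 := by
    refine Finset.card_nsmul_le_sum S _ _ fun ρ hρ => ?_
    rw [hS, Finset.mem_filter] at hρ
    have h3 := hρ.2
    rw [hX ρ]
    nlinarith
  have h3 : ∑ ρ ∈ S, (∑ i, Y i (ρ i)) ^ 2 ≤ ∑ ρ : ∀ i, R i, (∑ i, Y i (ρ i)) ^ 2 :=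
    Finset.sum_le_sum_of_subset_of_nonneg (Finset.subset_univ _) fun ρ _ _ => sq_nonneg _
  rw [nsmul_eq_mul] at h2
  have h4 : (S.card : ℝ) * (M / 10) ^ 2 ≤ (∏ k, (Fintype.card (R k) : ℝ)) * M :=
    (h2.trans h3).trans (hsec.le.trans (mul_le_mul_of_nonneg_left hle hN0))
  have h5 : M * ((S.card : ℝ) * M) ≤ M * (100 * ∏ k, (Fintype.card (R k) : ℝ)) := by
    nlinarith
  exact le_of_mul_le_mul_left h5 hM0

end Pool.Agent.H337.AU458
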